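import Pool.Agent.H.MP_056111_lc.Main
open Set
namespace Pool.Agent.Results.MP_056111_lc.NotIdeal

def StronglyHaarMeager {G : Type} [AddCommGroup G] [TopologicalSpace G] (A : Set G) : Prop :=
  ∃ B : Set G, A ⊆ B ∧ @MeasurableSet G (borel G) B ∧ ∃ C : Set G, C.Nonempty ∧ IsCompact C ∧
    ∀ g : G, IsMeagre {x : C | (x : G) ∈ (fun b => b + g) '' B}

open Pool.Agent.H.MP_056111_lc

lemma img (B C : Set G) (g : G) :
    {x : C | (x : G) ∈ (fun b => b + g) '' B} = Subtype.val ⁻¹' {z | z + -g ∈ B} := by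
  ext x; simp

lemma borel_of (U : ℕ → Set G) (hU : ∀ N, IsOpen (U N)) :
    @MeasurableSet G (borel G) (F ∩ ⋂ N, U N) := by
  letI : MeasurableSpace G := borel G
  haveI : BorelSpace G := ⟨rfl⟩
  exact F_closed.measurableSet.inter (MeasurableSet.iInter fun N => (hU N).measurableSet)

theorem result : ∃ (G : Type) (_ : AddCommGroup G) (_ : TopologicalSpace G),
    IsTopologicalAddGroup G ∧ PolishSpace G ∧
    ∃ A B : Set G, StronglyHaarMeager A ∧ StronglyHaarMeager B ∧ ¬ StronglyHaarMeager (A ∪ B) := by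
  refine ⟨G, inferInstance, inferInstance, inferInstance, inferInstance, A1, A2, ?_, ?_, ?_⟩
  · refine ⟨A1, Subset.rfl, borel_of _ U1_open, C1, ⟨0, fun n => ⟨⟨le_rfl, j_nonneg _ _⟩, rfl⟩⟩,
      C1_compact, fun g => ?_⟩
    rw [img]; exact A1_meagre _
  · refine ⟨A2, Subset.rfl, borel_of _ U2_open, C2, ⟨0, fun n => rfl⟩, C2_compact, fun g => ?_⟩
    rw [img]; exact A2_meagre _
  · rintro ⟨B, hB, -, C, hne, hC, h⟩
    obtain ⟨g, hg⟩ := union_not hC hne
    have h1 := h (-g)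
    rw [img, neg_neg] at h1
    exact hg (h1.mono fun x hx => hB hx)

end Pool.Agent.Results.MP_056111_lc.NotIdeal
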